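import Mathlib
import Pool.Agent.H82.NP.Targets

/-!
# Targets for the uniform bound (`MP_ff17e6_an`)

Each target is a closed proposition. A module with dependencies takes them as hypotheses:
`theorem t_X (h1 : T_A) (h2 : T_B) : T_X`.
-/

set_option autoImplicit false

open Metric Set Filter Topology Polynomial

namespace Pool.Agent.H82.UB

open Pool.Agent.H82.Hp (co Np)
open Pool.Agent.H82.NP

/-- the potential of finitely many atoms on the circle -/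
noncomputable def rho {m : ℕ} (c : Fin m → ℝ) (ζ : Fin m → ℂ) (z : ℂ) : ℝ :=
  ∑ i, c i / ‖z - ζ i‖ ^ 2

/-- heavy tails of the potential -/
def T_S1 : Prop := ∀ (m : ℕ) (c : Fin m → ℝ) (ζ : Fin m → ℂ), (∀ i, 0 < c i) →
  (∀ i, ‖ζ i‖ = 1) → ∀ B : ℝ, 0 < B →
  3 * (av fun z => B / (rho c ζ z + B)) ^ 2 - (av fun z => B / (rho c ζ z + B)) ^ 3
    ≤ 2 * av fun z => (B / (rho c ζ z + B)) ^ 2

/-- mean value of `1 / (2 + H)`, `H = 1 - 2 z G' / (n G)` -/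
def T_HARM : Prop := ∀ (n : ℕ) (G : ℂ[X]), 1 ≤ n → G.natDegree ≤ n →
  (∀ z : ℂ, ‖z‖ < 1 → G.eval z ≠ 0) →
  (∀ z : ℂ, ‖z‖ = 1 → 2 * ((pA n G).eval z * (starRingEnd ℂ) (G.eval z)).re ≤ ‖G.eval z‖ ^ 2) ∧
  av (fun z => (G.eval z / (3 * G.eval z - 2 * (pA n G).eval z)).re) = 1 / 3

/-- the pointwise structure of a maximiser: `RT z` is `ρ |G|²` -/
noncomputable def RT {m : ℕ} (n : ℕ) (G : ℂ[X]) (r : Fin m → ℝ) (ζ : Fin m → ℂ) (z : ℂ) : ℝ :=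
  (∑ i, 2 * r i * ‖(G /ₘ (X - C (ζ i))).eval z‖ ^ 2) / n

def T_RT : Prop := ∀ (n : ℕ) (s : ℝ) (c : ℕ → ℂ) (G : ℂ[X]) (lam : ℕ → ℂ) (m : ℕ)
  (r : Fin m → ℝ) (ζ : Fin m → ℂ), 1 ≤ n → 0 < s → s < 1 → KKT n s c G lam m r ζ →
  nrm n G = 1 →
  (∀ z : ℂ, ‖z‖ = 1 → G.eval z ≠ 0 →
    RT n G r ζ z = rho (fun i => 2 * r i / n) ζ z * ‖G.eval z‖ ^ 2) ∧
  (∀ z : ℂ, ‖z‖ = 1 → ‖(pB n G).eval z‖ ^ 2 - ‖(pA n G).eval z‖ ^ 2 ≤ RT n G r ζ z) ∧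
  (∀ z : ℂ, ‖z‖ = 1 → ‖(pB n G).eval z‖ ^ 2 + ‖(pA n G).eval z‖ ^ 2
    ≤ RT n G r ζ z + 2 * s * ‖(pA n G).eval z‖ ^ 2) ∧
  av (fun z => RT n G r ζ z + 2 * s * ‖(pA n G).eval z‖ ^ 2) ≤ 1

/-- the elementary inequality behind the constant `15/16` -/
def T_CERT : Prop := ∀ x Ψ ρ W : ℝ, 0 ≤ x → x ≤ ρ → ρ ≤ W → (1 + x ^ 2 + Ψ ^ 2) / 2 ≤ W →
  32 / (4 + W) + (27 - 90 * (2 / (ρ + 2)) + 64 * (2 / (ρ + 2)) ^ 2) / 10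
    ≤ 3 + 9 * ((2 + x) / ((2 + x) ^ 2 + Ψ ^ 2))

/-- lower bound of the entropy at a maximiser -/
def T_LOW : Prop := ∀ (n : ℕ) (s : ℝ) (c : ℕ → ℂ) (G : ℂ[X]) (lam : ℕ → ℂ) (m : ℕ)
  (r : Fin m → ℝ) (ζ : Fin m → ℂ), 1 ≤ n → 0 < s → s < 1 → KKT n s c G lam m r ζ →
  nrm n G = 1 → Real.log (16 / 15) ≤ ent (sq G)

/-- telescoping with a general constant -/
def T_TELG : Prop := ∀ (n : ℕ) (κ : ℝ), 1 ≤ n → 0 ≤ κ →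
  (∀ (s : ℝ) (c : ℕ → ℂ) (G : ℂ[X]) (lam : ℕ → ℂ) (m : ℕ) (r : Fin m → ℝ) (ζ : Fin m → ℂ),
    0 < s → s < 1 → Max n s c → KKT n s c G lam m r ζ → κ ≤ ent (sq G)) →
  ∀ (s : ℝ), 0 < s → s < 1 → ∀ d ∈ CC n s, ‖ea d n‖ ≤ Real.exp (-(1 - s) * κ)

/-- the uniform bound -/
def T_UNI : Prop := ∀ (n : ℕ) (p q : ℝ), 1 ≤ n → 1 < p → 1 / p + 1 / q = 1 → ∀ f ∈ Np p,
  ‖co f n‖ ≤ (15 / 16) ^ (1 / q)

end Pool.Agent.H82.UB
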