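import Mathlib
import Pool.Agent.H82.UB.Targets

/-!
Module CERT.
-/

set_option autoImplicit false

namespace Pool.Agent.H82.UB

/-- the one variable inequality for `q ≥ 0` -/
lemma poly_q (q : ℝ) (hq : 0 ≤ q) :
    0 ≤ 3568 - 8341 * q + 6272 * q ^ 2 - 2039 * q ^ 3 + 1264 * q ^ 4 - 223 * q ^ 5 + 96 * q ^ 6
      + 3 * q ^ 7 := by
  rcases le_total q 1 with h | h
  · have hv : 0 ≤ 1 - q := by linarith
    have : 3568 - 8341 * q + 6272 * q ^ 2 - 2039 * q ^ 3 + 1264 * q ^ 4 - 223 * q ^ 5 + 96 * q ^ 6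
        + 3 * q ^ 7 = 3568 * (1 - q) ^ 7 + 16635 * (q * (1 - q) ^ 6) + 31154 * (q ^ 2 * (1 - q) ^ 5)
        + 29086 * (q ^ 3 * (1 - q) ^ 4) + 13888 * (q ^ 4 * (1 - q) ^ 3)
        + 3868 * (q ^ 5 * (1 - q) ^ 2) + 1576 * (q ^ 6 * (1 - q)) + 600 * q ^ 7 := by ring
    rw [this]
    positivity
  · have hv : 0 ≤ q - 1 := by linarith
    have : 3568 - 8341 * q + 6272 * q ^ 2 - 2039 * q ^ 3 + 1264 * q ^ 4 - 223 * q ^ 5 + 96 * q ^ 6
        + 3 * q ^ 7 = 600 + 2624 * (q - 1) + 7012 * (q - 1) ^ 2 + 2812 * (q - 1) ^ 3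
        + 1694 * (q - 1) ^ 4 + 416 * (q - 1) ^ 5 + 117 * (q - 1) ^ 6 + 3 * (q - 1) ^ 7 := by ring
    rw [this]
    positivity

/-- quartic with `X = 2 + u` -/
lemma poly_u (u : ℝ) (hu : 0 ≤ u) : 0 ≤ 104 - 22 * u - 317 * u ^ 2 + 282 * u ^ 3 + 3 * u ^ 4 := by
  rcases le_total u (1 / 2) with h | h
  · have hv : 0 ≤ 1 - 2 * u := by linarith
    have : 104 - 22 * u - 317 * u ^ 2 + 282 * u ^ 3 + 3 * u ^ 4
        = 104 * (1 - 2 * u) ^ 4 + 405 * ((2 * u) * (1 - 2 * u) ^ 3)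
        + 2047 / 4 * ((2 * u) ^ 2 * (1 - 2 * u) ^ 2) + 1039 / 4 * ((2 * u) ^ 3 * (1 - 2 * u))
        + 787 / 16 * (2 * u) ^ 4 := by ring
    rw [this]
    positivity
  rcases le_total u 1 with h1 | h1
  · have hv : 0 ≤ 2 - 2 * u := by linarith
    have hw : 0 ≤ 2 * u - 1 := by linarith
    have : 104 - 22 * u - 317 * u ^ 2 + 282 * u ^ 3 + 3 * u ^ 4
        = 787 / 16 * (2 - 2 * u) ^ 4 + 535 / 4 * ((2 * u - 1) * (2 - 2 * u) ^ 3)
        + 535 / 4 * ((2 * u - 1) ^ 2 * (2 - 2 * u) ^ 2) + 99 * ((2 * u - 1) ^ 3 * (2 - 2 * u))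
        + 50 * (2 * u - 1) ^ 4 := by ring
    rw [this]
    positivity
  · have hv : 0 ≤ u - 1 := by linarith
    have : 104 - 22 * u - 317 * u ^ 2 + 282 * u ^ 3 + 3 * u ^ 4
        = 50 + 202 * (u - 1) + 547 * (u - 1) ^ 2 + 294 * (u - 1) ^ 3 + 3 * (u - 1) ^ 4 := by ring
    rw [this]
    positivity

/-- case `ρ ≥ y` (with `k = ρ + 2`, `X = x + 2`) -/
lemma case_A (k X : ℝ) (hX : 2 ≤ X) (hk : (X - 2) ^ 2 ≤ 2 * k - 5) :
    32 / (k + 2) ≤ (3 * k ^ 2 + 180 * k - 256) / (10 * k ^ 2) + 9 * X / (2 * k + 4 * X - 9) := by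
  have hk1 : 5 / 2 ≤ k := by nlinarith [sq_nonneg (X - 2)]
  have hD : 0 < 2 * k + 4 * X - 9 := by nlinarith
  rcases le_total k (9 / 2) with h | h
  · -- `q = √(2 k - 5)`
    obtain ⟨q, hq0, hq⟩ : ∃ q : ℝ, 0 ≤ q ∧ q ^ 2 = 2 * k - 5 :=
      ⟨Real.sqrt (2 * k - 5), Real.sqrt_nonneg _, Real.sq_sqrt (by linarith)⟩
    have hq2 : q ≤ 2 := by nlinarith
    have hXq : X ≤ 2 + q := by nlinarith
    have hkq : k = (q ^ 2 + 5) / 2 := by linarith
    have h1 : 9 / (2 + q) ≤ 9 * X / (2 * k + 4 * X - 9) := by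
      rw [div_le_div_iff₀ (by linarith) hD, hkq]
      nlinarith [mul_nonneg (by linarith : 0 ≤ 2 - q) (by linarith : 0 ≤ 2 + q - X)]
    have h2 : 32 / (k + 2) ≤ (3 * k ^ 2 + 180 * k - 256) / (10 * k ^ 2) + 9 / (2 + q) := by
      rw [div_add_div _ _ (by positivity) (by positivity), div_le_div_iff₀ (by positivity)
        (by positivity), hkq]
      have := poly_q q hq0
      have h3 : 0 ≤ (q ^ 2 + 5) := by positivity
      nlinarith [this]
    linarith
  · have h1 : 18 / (2 * k - 1) ≤ 9 * X / (2 * k + 4 * X - 9) := by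
      rw [div_le_div_iff₀ (by linarith) hD]
      nlinarith [mul_nonneg (by linarith : 0 ≤ 2 * k - 9) (by linarith : 0 ≤ X - 2)]
    have h2 : 32 / (k + 2) ≤ (3 * k ^ 2 + 180 * k - 256) / (10 * k ^ 2) + 18 / (2 * k - 1) := by
      have hk0 : 0 < k := by linarith
      have hk2 : 0 < 2 * k - 1 := by linarith
      rw [div_add_div _ _ (by positivity) (by positivity), div_le_div_iff₀ (by positivity)
        (by positivity)]
      have : 0 ≤ 6 * k ^ 4 - 91 * k ^ 3 + 702 * k ^ 2 - 1128 * k + 512 := by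
        nlinarith [sq_nonneg (k * (k - 91 / 12)), sq_nonneg (k - 2), sq_nonneg k]
      nlinarith [this]
    linarith

/-- case `ρ = x` (with `X = x + 2`) -/
lemma case_B (X s : ℝ) (hX : 2 ≤ X) (hs : 0 ≤ s) :
    64 / (9 + (X - 2) ^ 2 + s)
      ≤ (3 * X ^ 2 + 180 * X - 256) / (10 * X ^ 2) + 9 * X / (X ^ 2 + s) := by
  have hX0 : 0 < X := by linarith
  have hN : 0 < X ^ 2 + s := by positivity
  rw [div_add_div _ _ (by positivity) hN.ne', div_le_div_iff₀ (by positivity) (by positivity)]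
  obtain ⟨u, rfl⟩ : ∃ u, X = 2 + u := ⟨X - 2, by ring⟩
  have hu : 0 ≤ u := by linarith
  have h0 := poly_u u hu
  have hE : 0 ≤ 116 + 192 * u + 3 * u ^ 2 := by positivity
  -- the quadratic polynomial in `s`
  have key : 0 ≤ (116 + 192 * u + 3 * u ^ 2) * s ^ 2
      + (-332 + 1480 * u + 939 * u ^ 2 + 486 * u ^ 3 + 6 * u ^ 4) * s
      + (2 + u) ^ 2 * (104 - 22 * u - 317 * u ^ 2 + 282 * u ^ 3 + 3 * u ^ 4) := by
    rcases le_total u (1 / 4) with h | h
    · have h1 : 332 * s ≤ 116 * s ^ 2 + 240 := by nlinarith [sq_nonneg (s - 332 / 232)]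
      have h2 : 240 ≤ (2 + u) ^ 2 * (104 - 22 * u - 317 * u ^ 2 + 282 * u ^ 3 + 3 * u ^ 4) := by
        have h3 : 78 ≤ 104 - 22 * u - 317 * u ^ 2 + 282 * u ^ 3 + 3 * u ^ 4 := by
          nlinarith [mul_nonneg hu hu, pow_nonneg hu 3, pow_nonneg hu 4]
        nlinarith [sq_nonneg u]
      have h4 : 0 ≤ (192 * u + 3 * u ^ 2) * s ^ 2 := by positivity
      have h5 : 0 ≤ (1480 * u + 939 * u ^ 2 + 486 * u ^ 3 + 6 * u ^ 4) * s := by positivity
      linarith
    · have h1 : 0 ≤ -332 + 1480 * u + 939 * u ^ 2 + 486 * u ^ 3 + 6 * u ^ 4 := by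
        nlinarith [pow_nonneg hu 2, pow_nonneg hu 3, pow_nonneg hu 4]
      positivity
  nlinarith [key]

theorem t_CERT : T_CERT := by
  intro x Ψ ρ W hx hxρ hρW hyW
  set s := Ψ ^ 2 with hsdef
  have hs : 0 ≤ s := by rw [hsdef]; positivity
  set y := (1 + x ^ 2 + s) / 2 with hy
  have hy0 : 1 / 2 ≤ y := by nlinarith [sq_nonneg x]
  have hyx : x ≤ y := by nlinarith [sq_nonneg (x - 1)]
  have hρ0 : 0 ≤ ρ := hx.trans hxρ
  have hN : 0 < (2 + x) ^ 2 + s := by positivity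
  -- the case `ρ ≥ y`
  have hA : ∀ t : ℝ, y ≤ t →
      32 / (4 + t) + (27 - 90 * (2 / (t + 2)) + 64 * (2 / (t + 2)) ^ 2) / 10
        ≤ 3 + 9 * ((2 + x) / ((2 + x) ^ 2 + s)) := by
    intro t ht
    have hk := case_A (t + 2) (2 + x) (by linarith) (by rw [hy] at ht; nlinarith)
    have ht0 : 0 < t + 2 := by linarith
    have e1 : (27 - 90 * (2 / (t + 2)) + 64 * (2 / (t + 2)) ^ 2) / 10
        = 3 - (3 * (t + 2) ^ 2 + 180 * (t + 2) - 256) / (10 * (t + 2) ^ 2) := by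
      field_simp
      ring
    have e2 : 9 * (2 + x) / (2 * (t + 2) + 4 * (2 + x) - 9) ≤ 9 * ((2 + x) / ((2 + x) ^ 2 + s)) := by
      rw [mul_div_assoc]
      apply mul_le_mul_of_nonneg_left _ (by norm_num)
      apply div_le_div_of_nonneg_left (by linarith) hN
      rw [hy] at ht
      nlinarith
    have e3 : 32 / (t + 2 + 2) = 32 / (4 + t) := by
      congr 1
      ring
    rw [e3] at hk
    rw [e1]
    linarith
  rcases le_total y ρ with h | h
  · have h1 := hA ρ h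
    have h2 : 32 / (4 + W) ≤ 32 / (4 + ρ) :=
      div_le_div_of_nonneg_left (by norm_num) (by linarith) (by linarith)
    linarith
  · have h2 : 32 / (4 + W) ≤ 32 / (4 + y) :=
      div_le_div_of_nonneg_left (by norm_num) (by linarith) (by linarith)
    have h3 := hA y le_rfl
    have h4 : 32 / (4 + y) + (27 - 90 * (2 / (x + 2)) + 64 * (2 / (x + 2)) ^ 2) / 10
        ≤ 3 + 9 * ((2 + x) / ((2 + x) ^ 2 + s)) := by
      have hk := case_B (2 + x) s (by linarith) hs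
      have e1 : (27 - 90 * (2 / (x + 2)) + 64 * (2 / (x + 2)) ^ 2) / 10
          = 3 - (3 * (2 + x) ^ 2 + 180 * (2 + x) - 256) / (10 * (2 + x) ^ 2) := by
        have : x + 2 ≠ 0 := by linarith
        have : 2 + x ≠ 0 := by linarith
        rw [add_comm x 2]
        field_simp
        ring
      have e2 : 64 / (9 + (2 + x - 2) ^ 2 + s) = 32 / (4 + y) := by
        rw [hy, div_eq_div_iff (by positivity) (by positivity)]
        ring
      rw [e2] at hk
      rw [e1, ← mul_div_assoc]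
      linarith
    -- convexity in `V = 2 / (ρ + 2)`
    set V := 2 / (ρ + 2) with hV
    set V1 := 2 / (y + 2) with hV1
    set V2 := 2 / (x + 2) with hV2
    have a1 : V1 ≤ V := div_le_div_of_nonneg_left (by norm_num) (by linarith) (by linarith)
    have a2 : V ≤ V2 := div_le_div_of_nonneg_left (by norm_num) (by linarith) (by linarith)
    set M := 10 * (3 + 9 * ((2 + x) / ((2 + x) ^ 2 + s)) - 32 / (4 + y)) - 27 with hM
    have b1 : -90 * V1 + 64 * V1 ^ 2 ≤ M := by rw [hM]; linarith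
    have b2 : -90 * V2 + 64 * V2 ^ 2 ≤ M := by rw [hM]; linarith
    have b3 : -90 * V + 64 * V ^ 2 ≤ M := by
      rcases eq_or_lt_of_le (a1.trans a2) with h5 | h5
      · have : V = V1 := le_antisymm (by rw [h5]; exact a2) a1
        rw [this]
        exact b1
      · have c1 : (V2 - V) * (-90 * V1 + 64 * V1 ^ 2) ≤ (V2 - V) * M :=
          mul_le_mul_of_nonneg_left b1 (by linarith)
        have c2 : (V - V1) * (-90 * V2 + 64 * V2 ^ 2) ≤ (V - V1) * M :=
          mul_le_mul_of_nonneg_left b2 (by linarith)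
        have c3 : (V2 - V1) * (-90 * V + 64 * V ^ 2) ≤ (V2 - V1) * M := by
          nlinarith [mul_nonneg (mul_nonneg (by linarith : 0 ≤ V2 - V) (by linarith : 0 ≤ V - V1))
            (by linarith : 0 ≤ V2 - V1)]
        exact le_of_mul_le_mul_left c3 (by linarith)
    rw [hM] at b3
    linarith

end Pool.Agent.H82.UB
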