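import Mathlib
import Pool.Agent.H82.UB.Targets
import Pool.Agent.H92.NP.Pars

/-!
Module LOW.
-/

set_option autoImplicit false

open Metric Set Filter Topology Polynomial MeasureTheory

namespace Pool.Agent.H82.UB

open ComplexConjugate
open Pool.Agent.H82.NP

lemma ci_bdd {f : ℂ → ℝ} (hm : Measurable f) {K : ℝ} (hb : ∀ z : ℂ, ‖z‖ = 1 → |f z| ≤ K) :
    CircleIntegrable f 0 1 := by
  unfold CircleIntegrable
  have h1 : IntervalIntegrable (fun _ : ℝ => K) volume 0 (2 * Real.pi) :=
    intervalIntegrable_const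
  refine h1.mono_fun' ?_ ?_
  · exact (hm.comp (continuous_circleMap 0 1).measurable).aestronglyMeasurable
  · refine Filter.Eventually.of_forall fun θ => ?_
    have h2 : |f (circleMap 0 1 θ)| ≤ K := hb _ (by simp)
    exact h2

lemma ci_sq (G : ℂ[X]) : CircleIntegrable (NP.sq G) 0 1 :=
  Pool.Agent.H92.NP.ci_of (G.continuous.norm.pow 2).continuousOn

/-- pointwise entropy inequality -/
lemma ent_point {T u : ℝ} (hT : 0 ≤ T) (hu : 0 ≤ u) :
    T * (2 + Real.log (16 / 15)) - (4 * T + u) / 5 - 16 / 3 * (T / (4 * T + u))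
      ≤ T * Real.log T := by
  rcases eq_or_lt_of_le hT with h | h
  · rw [← h]
    simp only [zero_mul, mul_zero, zero_add, zero_div, sub_zero, zero_sub]
    linarith [div_nonneg hu (by norm_num : (0 : ℝ) ≤ 5)]
  · have hD : 0 < 4 * T + u := by linarith
    have h1 := Real.log_le_sub_one_of_pos (by positivity : 0 < 16 / 3 / (4 * T + u))
    have h2 := Real.log_le_sub_one_of_pos (by positivity : 0 < (4 * T + u) / T / 5)
    have h3 : Real.log (16 / 3 / (4 * T + u)) + Real.log ((4 * T + u) / T / 5)
        = Real.log (16 / 15) - Real.log T := by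
      rw [← Real.log_mul (by positivity) (by positivity), ← Real.log_div (by norm_num) h.ne']
      congr 1
      field_simp
      norm_num
    have h4 : Real.log (16 / 15) - Real.log T
        ≤ 16 / 3 / (4 * T + u) + (4 * T + u) / T / 5 - 2 := by linarith
    have h5 := mul_le_mul_of_nonneg_left h4 hT
    have h6 : T * (16 / 3 / (4 * T + u) + (4 * T + u) / T / 5 - 2)
        = 16 / 3 * (T / (4 * T + u)) + (4 * T + u) / 5 - 2 * T := by
      field_simp
    rw [h6] at h5
    linarith

theorem t_LOW (hS1 : T_S1) (hHARM : T_HARM) (hRT : T_RT) (hCERT : T_CERT) : T_LOW := by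
  intro n s c G lam m r ζ hn hs hs1 hK hnrm
  obtain ⟨p1, p2, p3, p4⟩ := hRT n s c G lam m r ζ hn hs hs1 hK hnrm
  obtain ⟨q1, q2⟩ := hHARM n G hn hK.deg hK.zf
  have hn0 : (0 : ℝ) < n := by exact_mod_cast (by omega : 0 < n)
  set c' : Fin m → ℝ := fun i => 2 * r i / n with hc'
  have hc'0 : ∀ i, 0 < c' i := fun i => by
    have := hK.rpos i
    simp only [hc']
    positivity
  have hS := hS1 m c' ζ hc'0 hK.circ 2 (by norm_num)
  set V : ℂ → ℝ := fun z => 2 / (rho c' ζ z + 2) with hV
  have hrho0 : ∀ z, 0 ≤ rho c' ζ z := fun z =>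
    Finset.sum_nonneg fun i _ => div_nonneg (hc'0 i).le (sq_nonneg _)
  have hV0 : ∀ z, 0 ≤ V z := fun z => by
    have := hrho0 z
    simp only [hV]
    positivity
  have hV1 : ∀ z, V z ≤ 1 := fun z => by
    have := hrho0 z
    simp only [hV]
    rw [div_le_one (by linarith)]
    linarith
  have hrhom : Measurable (rho c' ζ) := by
    unfold rho
    refine Finset.measurable_sum _ fun i _ => ?_
    exact measurable_const.div ((measurable_norm.comp (measurable_id.sub_const _)).pow_const 2)
  have hVm : Measurable V := measurable_const.div (hrhom.add_const 2)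
  -- the weight
  set A := pA n G with hA
  set B := pB n G with hB
  have hBA : ∀ z, B.eval z = G.eval z - A.eval z := fun z => by
    rw [hB, hA]
    unfold pB
    rw [eval_sub]
  set U : ℂ → ℝ := fun z => RT n G r ζ z + 2 * s * ‖A.eval z‖ ^ 2 with hU
  have hRT0 : ∀ z, 0 ≤ RT n G r ζ z := fun z => by
    unfold RT
    exact div_nonneg (Finset.sum_nonneg fun i _ =>
      mul_nonneg (mul_nonneg (by norm_num) (hK.rpos i).le) (sq_nonneg _)) hn0.le
  have hU0 : ∀ z, 0 ≤ U z := fun z => by
    have := hRT0 z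
    simp only [hU]
    positivity
  have hT0 : ∀ z, 0 ≤ NP.sq G z := fun z => by unfold NP.sq; positivity
  set w : ℂ → ℝ := fun z => NP.sq G z / (4 * NP.sq G z + U z) with hw
  have hRTc : Continuous (RT n G r ζ) := by
    unfold RT
    refine Continuous.div_const (continuous_finsetSum _ fun i _ => ?_) _
    exact continuous_const.mul ((Polynomial.continuous _).norm.pow 2)
  have hUc : Continuous U := hRTc.add (continuous_const.mul (A.continuous.norm.pow 2))
  have hTc : Continuous (NP.sq G) := G.continuous.norm.pow 2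
  have hwm : Measurable w := hTc.measurable.div ((continuous_const.mul hTc).add hUc).measurable
  have hw0 : ∀ z, 0 ≤ w z := fun z => by
    have h1 := hT0 z
    have h2 := hU0 z
    simp only [hw]
    positivity
  have hw1 : ∀ z, w z ≤ 1 / 4 := fun z => by
    have h1 := hT0 z
    have h2 := hU0 z
    simp only [hw]
    rcases eq_or_lt_of_le h1 with h | h
    · rw [← h]
      simp
    · rw [div_le_div_iff₀ (by positivity) (by norm_num)]
      linarith
  set hh : ℂ → ℝ := fun z => (G.eval z / (3 * G.eval z - 2 * A.eval z)).re with hhh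
  have hhm : Measurable hh :=
    Complex.measurable_re.comp (G.continuous.measurable.div
      ((continuous_const.mul G.continuous).sub (continuous_const.mul A.continuous)).measurable)
  -- the pointwise inequality and the bound for `hh`
  have hpt : ∀ z : ℂ, ‖z‖ = 1 → |hh z| ≤ 1 / 2 ∧
      32 * w z ≤ 3 + 9 * hh z - (27 - 90 * V z + 64 * V z ^ 2) / 10 := by
    intro z hz
    by_cases hG : G.eval z = 0
    · have h1 : hh z = 0 := by simp [hhh, hG]
      have h2 : w z = 0 := by simp [hw, NP.sq, hG]
      rw [h1, h2, abs_zero]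
      refine ⟨by norm_num, ?_⟩
      nlinarith [hV0 z, hV1 z]
    · have hTpos : 0 < ‖G.eval z‖ ^ 2 := by positivity
      set g := G.eval z with hg
      set a := A.eval z with ha
      set H : ℂ := (g - 2 * a) / g with hH
      have hgH : g * H = g - 2 * a := by rw [hH]; field_simp
      have e1 : 3 * g - 2 * a = g * (2 + H) := by rw [mul_add, hgH]; ring
      have e2 : hh z = (1 / (2 + H)).re := by
        simp only [hhh]
        rw [e1, ← div_div, div_self hG]
      -- norms
      have hx : H.re * ‖g‖ ^ 2 = ‖B.eval z‖ ^ 2 - ‖a‖ ^ 2 := by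
        have h1 : H * (‖g‖ ^ 2 : ℝ) = (g - 2 * a) * conj g := by
          rw [← hgH, ← Complex.normSq_eq_norm_sq, ← Complex.mul_conj]
          ring
        have h2 := congrArg Complex.re h1
        rw [Complex.re_mul_ofReal] at h2
        rw [h2, hBA z, ← Complex.normSq_eq_norm_sq, ← Complex.normSq_eq_norm_sq]
        simp only [Complex.normSq_apply, Complex.mul_re, Complex.sub_re, Complex.sub_im,
          Complex.conj_re, Complex.conj_im, Complex.mul_im, Complex.re_ofNat, Complex.im_ofNat]
        ring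
      have hy : (1 + H.re ^ 2 + H.im ^ 2) / 2 * ‖g‖ ^ 2 = ‖B.eval z‖ ^ 2 + ‖a‖ ^ 2 := by
        have h1 : H.re ^ 2 + H.im ^ 2 = ‖H‖ ^ 2 := by
          rw [← Complex.normSq_eq_norm_sq, Complex.normSq_apply]
          ring
        have h2 : ‖g‖ ^ 2 * ‖H‖ ^ 2 = ‖g - 2 * a‖ ^ 2 := by
          rw [← mul_pow, ← norm_mul, hgH]
        have h3 : (1 + H.re ^ 2 + H.im ^ 2) / 2 * ‖g‖ ^ 2
            = (‖g‖ ^ 2 + ‖g - 2 * a‖ ^ 2) / 2 := by
          rw [← h2]
          linear_combination (‖g‖ ^ 2 / 2) * h1
        rw [h3, hBA z, ← Complex.normSq_eq_norm_sq, ← Complex.normSq_eq_norm_sq,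
          ← Complex.normSq_eq_norm_sq, ← Complex.normSq_eq_norm_sq]
        simp only [Complex.normSq_apply, Complex.mul_re, Complex.sub_re, Complex.sub_im,
          Complex.mul_im, Complex.re_ofNat, Complex.im_ofNat]
        ring
      have hx0 : 0 ≤ H.re := by
        have h1 := q1 z hz
        have h2 : ‖B.eval z‖ ^ 2 - ‖a‖ ^ 2 = ‖g‖ ^ 2 - 2 * (a * conj g).re := by
          rw [hBA z, ← Complex.normSq_eq_norm_sq, ← Complex.normSq_eq_norm_sq,
            ← Complex.normSq_eq_norm_sq]
          simp only [Complex.normSq_apply, Complex.mul_re, Complex.sub_re, Complex.sub_im,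
            Complex.conj_re, Complex.conj_im]
          ring
        have h3 : 0 ≤ H.re * ‖g‖ ^ 2 := by
          rw [hx, h2]
          linarith
        exact nonneg_of_mul_nonneg_left h3 hTpos
      -- the parameters
      have hρ : RT n G r ζ z = rho c' ζ z * ‖g‖ ^ 2 := p1 z hz hG
      set W : ℝ := U z / ‖g‖ ^ 2 with hW
      have hWU : W * ‖g‖ ^ 2 = U z := by rw [hW]; field_simp
      have i1 : H.re ≤ rho c' ζ z := by
        have := p2 z hz
        rw [hρ] at this
        rw [← hx] at this
        exact le_of_mul_le_mul_right this hTpos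
      have i2 : rho c' ζ z ≤ W := by
        have : rho c' ζ z * ‖g‖ ^ 2 ≤ W * ‖g‖ ^ 2 := by
          rw [hWU, ← hρ]
          simp only [hU]
          have : 0 ≤ 2 * s * ‖A.eval z‖ ^ 2 := by positivity
          linarith
        exact le_of_mul_le_mul_right this hTpos
      have i3 : (1 + H.re ^ 2 + H.im ^ 2) / 2 ≤ W := by
        have : (1 + H.re ^ 2 + H.im ^ 2) / 2 * ‖g‖ ^ 2 ≤ W * ‖g‖ ^ 2 := by
          rw [hWU, hy]
          exact p3 z hz
        exact le_of_mul_le_mul_right this hTpos
      have hcert := hCERT H.re H.im (rho c' ζ z) W hx0 i1 i2 i3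
      have hden : 0 < (2 + H.re) ^ 2 + H.im ^ 2 := by positivity
      have e3 : (1 / (2 + H)).re = (2 + H.re) / ((2 + H.re) ^ 2 + H.im ^ 2) := by
        rw [one_div, Complex.inv_re, Complex.normSq_apply]
        simp only [Complex.add_re, Complex.add_im, Complex.re_ofNat, Complex.im_ofNat, zero_add]
        congr 1
        ring
      have e4 : w z = 1 / (4 + W) := by
        have hW0 : 0 ≤ W := (by positivity : (0 : ℝ) ≤ (1 + H.re ^ 2 + H.im ^ 2) / 2).trans i3
        simp only [hw]
        have : NP.sq G z = ‖g‖ ^ 2 := rfl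
        rw [this, ← hWU, div_eq_div_iff (by positivity) (by positivity)]
        ring
      refine ⟨?_, ?_⟩
      · rw [e2, e3, abs_of_nonneg (by positivity), div_le_div_iff₀ hden (by norm_num)]
        nlinarith [sq_nonneg H.im, hx0]
      · rw [e2, e3, e4]
        have : (32 : ℝ) * (1 / (4 + W)) = 32 / (4 + W) := by ring
        rw [this]
        simp only [hV]
        linarith
  -- integrate the pointwise inequality
  have ciV : CircleIntegrable V 0 1 := ci_bdd hVm (K := 1) fun z _ => by
    rw [abs_of_nonneg (hV0 z)]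
    exact hV1 z
  have ciV2 : CircleIntegrable (fun z => V z ^ 2) 0 1 :=
    ci_bdd (hVm.pow_const 2) (K := 1) fun z _ => by
      rw [abs_of_nonneg (sq_nonneg _)]
      nlinarith [hV0 z, hV1 z]
  have ciw : CircleIntegrable w 0 1 := ci_bdd hwm (K := 1 / 4) fun z _ => by
    rw [abs_of_nonneg (hw0 z)]
    exact hw1 z
  have cih : CircleIntegrable hh 0 1 := ci_bdd hhm (K := 1 / 2) fun z hz => (hpt z hz).1
  have ciC : CircleIntegrable (fun _ : ℂ => (3 / 10 : ℝ)) 0 1 := circleIntegrable_const _ _ _
  have hw2 : av w ≤ 3 / 16 := by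
    have h1 : av (fun z => 32 * w z)
        ≤ av (fun z => 3 / 10 + (9 * hh z + (9 * V z - 32 / 5 * V z ^ 2))) := by
      unfold av
      apply Real.circleAverage_mono
      · exact ciw.const_mul 32
      · exact ciC.add ((cih.const_mul 9).add ((ciV.const_mul 9).sub (ciV2.const_mul (32 / 5))))
      · intro z hz
        have hz' : ‖z‖ = 1 := by simpa using hz
        have := (hpt z hz').2
        linarith
    have h2 : av (fun z => 32 * w z) = 32 * av w := by
      unfold av
      rw [← smul_eq_mul (a := (32 : ℝ)), ← Real.circleAverage_smul]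
      rfl
    have k1 : av (fun _ : ℂ => (3 / 10 : ℝ)) = 3 / 10 := Real.circleAverage_const _ _ _
    have h3 : av (fun z => 3 / 10 + (9 * hh z + (9 * V z - 32 / 5 * V z ^ 2)))
        = av (fun _ : ℂ => (3 / 10 : ℝ))
          + (9 * av hh + (9 * av V - 32 / 5 * av (fun z => V z ^ 2))) := by
      unfold av
      rw [← smul_eq_mul (9 : ℝ), ← smul_eq_mul (9 : ℝ), ← smul_eq_mul (32 / 5 : ℝ),
        ← Real.circleAverage_smul, ← Real.circleAverage_smul, ← Real.circleAverage_smul,
        ← Real.circleAverage_sub, ← Real.circleAverage_add, ← Real.circleAverage_add]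
      · rfl
      all_goals first
        | exact ciC
        | exact ciV.const_mul 9
        | exact ciV2.const_mul (32 / 5)
        | exact cih.const_mul 9
        | exact (ciV.const_mul 9).sub (ciV2.const_mul (32 / 5))
        | exact (cih.const_mul 9).add ((ciV.const_mul 9).sub (ciV2.const_mul (32 / 5)))
    have h4 : av hh = 1 / 3 := q2
    have h5 : av V ≤ 1 := by
      have : av V ≤ av (fun _ : ℂ => (1 : ℝ)) := by
        unfold av
        exact Real.circleAverage_mono ciV (circleIntegrable_const _ _ _) fun z _ => hV1 z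
      rwa [show av (fun _ : ℂ => (1 : ℝ)) = 1 from Real.circleAverage_const _ _ _] at this
    rw [h2, h3, k1, h4] at h1
    set v := av V with hv
    have h6 : 3 * v ^ 2 - v ^ 3 ≤ 2 * av (fun z => V z ^ 2) := hS
    nlinarith [mul_nonneg (sq_nonneg (v - 3 / 4)) (by linarith : 0 ≤ 3 / 2 - v)]
  -- the entropy
  have hmain : av (fun z => (2 + Real.log (16 / 15)) * NP.sq G z
        - (4 / 5 * NP.sq G z + (1 / 5 * U z + 16 / 3 * w z))) ≤ ent (NP.sq G) := by
    unfold ent av
    apply Real.circleAverage_mono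
    · exact (((ci_sq G).const_mul _)).sub ((((ci_sq G).const_mul _)).add
        (((Pool.Agent.H92.NP.ci_of hUc.continuousOn).const_mul _).add (ciw.const_mul _)))
    · apply Pool.Agent.H92.NP.ci_of
      exact (Real.continuous_mul_log.comp hTc).continuousOn
    · intro z hz
      have := ent_point (hT0 z) (hU0 z)
      simp only [hw]
      linarith
  have cG : CircleIntegrable (NP.sq G) 0 1 := ci_sq G
  have cU : CircleIntegrable U 0 1 := Pool.Agent.H92.NP.ci_of hUc.continuousOn
  have c1 : CircleIntegrable (fun z => (2 + Real.log (16 / 15)) * NP.sq G z) 0 1 :=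
    cG.const_mul _
  have c2 : CircleIntegrable (fun z => 4 / 5 * NP.sq G z) 0 1 := cG.const_mul _
  have c3 : CircleIntegrable (fun z => 1 / 5 * U z) 0 1 := cU.const_mul _
  have c4 : CircleIntegrable (fun z => 16 / 3 * w z) 0 1 := ciw.const_mul _
  have c5 : CircleIntegrable (fun z => 1 / 5 * U z + 16 / 3 * w z) 0 1 := c3.add c4
  have c6 : CircleIntegrable (fun z => 4 / 5 * NP.sq G z + (1 / 5 * U z + 16 / 3 * w z)) 0 1 :=
    c2.add c5
  have d1 : av (fun z => (2 + Real.log (16 / 15)) * NP.sq G z)
      = (2 + Real.log (16 / 15)) * av (NP.sq G) := by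
    unfold av
    rw [← smul_eq_mul (2 + Real.log (16 / 15)), ← Real.circleAverage_smul]
    rfl
  have d2 : av (fun z => 4 / 5 * NP.sq G z) = 4 / 5 * av (NP.sq G) := by
    unfold av
    rw [← smul_eq_mul (4 / 5 : ℝ), ← Real.circleAverage_smul]
    rfl
  have d3 : av (fun z => 1 / 5 * U z) = 1 / 5 * av U := by
    unfold av
    rw [← smul_eq_mul (1 / 5 : ℝ), ← Real.circleAverage_smul]
    rfl
  have d4 : av (fun z => 16 / 3 * w z) = 16 / 3 * av w := by
    unfold av
    rw [← smul_eq_mul (16 / 3 : ℝ), ← Real.circleAverage_smul]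
    rfl
  have d5 : av (fun z => 1 / 5 * U z + 16 / 3 * w z) = 1 / 5 * av U + 16 / 3 * av w := by
    rw [← d3, ← d4]
    unfold av
    rw [← Real.circleAverage_add c3 c4]
    rfl
  have d6 : av (fun z => 4 / 5 * NP.sq G z + (1 / 5 * U z + 16 / 3 * w z))
      = 4 / 5 * av (NP.sq G) + (1 / 5 * av U + 16 / 3 * av w) := by
    rw [← d2, ← d5]
    unfold av
    rw [← Real.circleAverage_add c2 c5]
    rfl
  have hav : av (fun z => (2 + Real.log (16 / 15)) * NP.sq G z
        - (4 / 5 * NP.sq G z + (1 / 5 * U z + 16 / 3 * w z)))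
      = (2 + Real.log (16 / 15)) * av (NP.sq G)
        - (4 / 5 * av (NP.sq G) + (1 / 5 * av U + 16 / 3 * av w)) := by
    rw [← d1, ← d6]
    unfold av
    rw [← Real.circleAverage_sub c1 c6]
    rfl
  have hT1 : av (NP.sq G) = 1 := by
    rw [Pool.Agent.H92.NP.t_PARS n G hK.deg, hnrm]
  have hUav : av U ≤ 1 := p4
  rw [hav, hT1] at hmain
  linarith

end Pool.Agent.H82.UB
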