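import Mathlib
import Pool.Agent.H82.UB.Targets
import Pool.Agent.H82.NP.KEY
import Pool.Agent.H92.NP.Pars
import Pool.Agent.H62.NP.UNIQ

/-!
Module RT.
-/

set_option autoImplicit false

open Metric Set Filter Topology Polynomial

namespace Pool.Agent.H82.UB

open ComplexConjugate
open Pool.Agent.H82.NP

/-- the Fejer mean as a sum of squares of truncations -/
lemma trunc_id {n : ℕ} {G : ℂ[X]} (hG : G.natDegree ≤ n) {z : ℂ} (hz : ‖z‖ = 1) :
    ∑ l ∈ Finset.range n, (sq (low G l) z + sq (G - low G l) z)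
      = n * sq G z - TP n (fun k => (k : ℂ) * ac n G k) z := by
  have h1 : ∑ l ∈ Finset.range n, (sq (low G l) z + sq (G - low G l) z)
      = TP n (fun k => ∑ l ∈ Finset.range n, (ac n (low G l) k + ac n (G - low G l) k)) z := by
    rw [TP_sum]
    apply Finset.sum_congr rfl
    intro l _
    rw [TP_add, sq_eq (natDegree_low hG l) hz,
      sq_eq ((natDegree_sub_le _ _).trans (max_le hG (natDegree_low hG l))) hz]
  have h2 : ∀ k, k ≤ n → ∑ l ∈ Finset.range n, (ac n (low G l) k + ac n (G - low G l) k)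
      = (n : ℂ) * ac n G k + ((-1 : ℝ) : ℂ) * ((k : ℂ) * ac n G k) := by
    intro k hk
    unfold ac
    have h3 : ∀ l ∈ Finset.range n,
        (∑ j ∈ Finset.range (n + 1), (low G l).coeff j * conj ((low G l).coeff (j + k))
          + ∑ j ∈ Finset.range (n + 1), (G - low G l).coeff j * conj ((G - low G l).coeff (j + k)))
        = ∑ j ∈ Finset.range (n + 1), (((if j + k ≤ l then 1 else 0) + (if l < j then 1 else 0) : ℕ) : ℂ)
            * (G.coeff j * conj (G.coeff (j + k))) := by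
      intro l _
      rw [← Finset.sum_add_distrib]
      apply Finset.sum_congr rfl
      intro j _
      simp only [coeff_sub, coeff_low]
      by_cases h1 : j + k ≤ l
      · rw [if_pos h1, if_pos (by omega : j ≤ l), if_pos h1, if_neg (by omega : ¬ l < j)]
        simp
      · by_cases h2 : l < j
        · rw [if_neg h1, if_neg (by omega : ¬ j ≤ l), if_neg h1, if_pos h2]
          simp
        · rw [if_neg h1, if_pos (by omega : j ≤ l), if_neg h1, if_neg h2]
          simp
    rw [Finset.sum_congr rfl h3, Finset.sum_comm]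
    rw [show (n : ℂ) * ∑ j ∈ Finset.range (n + 1), G.coeff j * conj (G.coeff (j + k))
        + ((-1 : ℝ) : ℂ) * ((k : ℂ) * ∑ j ∈ Finset.range (n + 1), G.coeff j * conj (G.coeff (j + k)))
        = ((n : ℂ) - k) * ∑ j ∈ Finset.range (n + 1), G.coeff j * conj (G.coeff (j + k)) by
      push_cast
      ring, Finset.mul_sum]
    apply Finset.sum_congr rfl
    intro j hj
    rw [← Finset.sum_mul]
    by_cases hjk : j + k ≤ n
    · congr 1
      rw [← Nat.cast_sum, ← Nat.cast_sub hk]
      congr 1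
      rw [Finset.sum_add_distrib, ← Finset.card_filter, ← Finset.card_filter]
      have e1 : Finset.filter (fun l => j + k ≤ l) (Finset.range n) = Finset.Ico (j + k) n := by
        ext l
        simp only [Finset.mem_filter, Finset.mem_range, Finset.mem_Ico]
        omega
      have e2 : Finset.filter (fun l => l < j) (Finset.range n) = Finset.range j := by
        ext l
        simp only [Finset.mem_filter, Finset.mem_range]
        omega
      rw [e1, e2, Nat.card_Ico, Finset.card_range]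
      omega
    · rw [coeff_eq_zero_of_natDegree_lt (by omega : G.natDegree < j + k)]
      simp
  rw [TP_congr h2, TP_add, TP_smul] at h1
  have h4 : TP n (fun k => (n : ℂ) * ac n G k) z = n * sq G z := by
    have := TP_smul n (n : ℝ) (ac n G) z
    push_cast at this
    rw [this, sq_eq hG hz]
  rw [h4] at h1
  linarith

/-- the basic identity at a maximiser -/
lemma kkt_id {n : ℕ} {s : ℝ} {c : ℕ → ℂ} {G : ℂ[X]} {lam : ℕ → ℂ} {m : ℕ}
    {r : Fin m → ℝ} {ζ : Fin m → ℂ} (hn : 1 ≤ n) (h : KKT n s c G lam m r ζ) {z : ℂ}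
    (hz : ‖z‖ = 1) :
    s * (2 * ((DD G).eval z * conj (G.eval z)).re)
      + ∑ i, 2 * r i * ‖(G /ₘ (X - C (ζ i))).eval z‖ ^ 2
      = n * sq G z - (1 - s) * TP n (fun k => (k : ℂ) * ac n G k) z := by
  have hG := h.deg
  -- the identity of coefficients
  have hcoef : ∀ k, k ≤ n →
      (s : ℂ) * (2 * (∑ i ∈ Finset.range (n + 1), (i : ℂ) * G.coeff i * conj (G.coeff (i + k)))
          + k * ac n G k)
        + ∑ i, ((2 * r i : ℝ) : ℂ) * ac n (G /ₘ (X - C (ζ i))) k
      = (n : ℂ) * ac n G k + ((-(1 - s) : ℝ) : ℂ) * ((k : ℂ) * ac n G k) := by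
    intro k hk
    have h1 := rec_t h k hk
    have h2 := rec_d hG h.log k
    have h3 : ∀ j ∈ Finset.range (n + 1), (j : ℂ) * c j * ac n G (k + j)
        = s * ((j : ℂ) * lam j * ac n G (k + j))
          - ∑ i, ((2 * r i : ℝ) : ℂ) * ((j : ℂ) * conj (ζ i) ^ j * ac n G (k + j)) := by
      intro j hj
      rw [Finset.mem_range] at hj
      cases j with
      | zero => simp
      | succ j =>
        rw [h.ck (j + 1) (by omega) (by omega)]
        have : ∑ i, ((2 * r i : ℝ) : ℂ) * (((j + 1 : ℕ) : ℂ) * conj (ζ i) ^ (j + 1) * ac n G (k + (j + 1)))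
            = ((j + 1 : ℕ) : ℂ) * (2 * ∑ i, (r i : ℂ) * conj (ζ i) ^ (j + 1)) * ac n G (k + (j + 1)) := by
          rw [Finset.mul_sum, Finset.mul_sum, Finset.sum_mul]
          apply Finset.sum_congr rfl
          intro i _
          push_cast
          ring
        rw [this]
        ring
    rw [Finset.sum_congr rfl h3, Finset.sum_sub_distrib, ← Finset.mul_sum, Finset.sum_comm] at h1
    have h4 : ∀ i ∈ (Finset.univ : Finset (Fin m)), ∑ j ∈ Finset.range (n + 1),
        ((2 * r i : ℝ) : ℂ) * ((j : ℂ) * conj (ζ i) ^ j * ac n G (k + j))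
        = - (((2 * r i : ℝ) : ℂ) * ac n (G /ₘ (X - C (ζ i))) k) := by
      intro i _
      rw [← Finset.mul_sum, rec_root hn hG (h.circ i) (h.root i) k]
      ring
    rw [Finset.sum_congr rfl h4, Finset.sum_neg_distrib] at h1
    rw [h2]
    push_cast at h1 ⊢
    linear_combination -h1
  -- pass to the trigonometric polynomials
  have hTP : s * (2 * ((DD G).eval z * conj (G.eval z)).re)
      + ∑ i, 2 * r i * ‖(G /ₘ (X - C (ζ i))).eval z‖ ^ 2
      = n * sq G z - (1 - s) * TP n (fun k => (k : ℂ) * ac n G k) z := by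
    have h1 := TP_congr (n := n) hcoef z
    rw [TP_add, TP_add, TP_smul, TP_smul, TP_sum, ← two_re_DD hG hz] at h1
    have h2 : TP n (fun k => (n : ℂ) * ac n G k) z = n * sq G z := by
      have := TP_smul n (n : ℝ) (ac n G) z
      push_cast at this
      rw [this, sq_eq hG hz]
    rw [h2] at h1
    have h3 : ∀ i ∈ (Finset.univ : Finset (Fin m)),
        TP n (fun k => ((2 * r i : ℝ) : ℂ) * ac n (G /ₘ (X - C (ζ i))) k) z
          = 2 * r i * ‖(G /ₘ (X - C (ζ i))).eval z‖ ^ 2 := by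
      intro i _
      rw [TP_smul, ← sq_eq ((natDegree_div hG (ζ i)).trans (Nat.sub_le n 1)) hz]
      rfl
    rw [Finset.sum_congr rfl h3] at h1
    linarith
  exact hTP

/-! ### Jensen -/

lemma sum_low {n : ℕ} {G : ℂ[X]} (hG : G.natDegree ≤ n) (hn : 1 ≤ n) (z : ℂ) :
    ∑ l ∈ Finset.range n, (low G l).eval z = n * (pB n G).eval z ∧
    ∑ l ∈ Finset.range n, (G - low G l).eval z = n * (pA n G).eval z := by
  have hn0 : (n : ℂ) ≠ 0 := by exact_mod_cast (by omega : n ≠ 0)
  have h1 : ∑ l ∈ Finset.range n, low G l = C (n : ℂ) * pB n G := by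
    ext j
    rw [finsetSum_coeff]
    simp only [coeff_low]
    unfold pB pA
    rw [coeff_C_mul, coeff_sub, coeff_C_mul]
    have h2 : (X * derivative G).coeff j = (j : ℂ) * G.coeff j := coeff_DD G j
    rw [h2]
    by_cases hj : j ≤ n
    · have h3 : ∑ l ∈ Finset.range n, (if j ≤ l then G.coeff j else 0)
          = ((n - j : ℕ) : ℂ) * G.coeff j := by
        rw [← Finset.sum_filter, Finset.sum_const, nsmul_eq_mul]
        congr 2
        have : Finset.filter (fun l => j ≤ l) (Finset.range n) = Finset.Ico j n := by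
          ext l
          simp only [Finset.mem_filter, Finset.mem_range, Finset.mem_Ico]
          omega
        rw [this, Nat.card_Ico]
      rw [h3, Nat.cast_sub hj]
      field_simp
    · rw [coeff_eq_zero_of_natDegree_lt (by omega : G.natDegree < j)]
      simp
  have h2 : ∑ l ∈ Finset.range n, (low G l).eval z = n * (pB n G).eval z := by
    have := congrArg (fun P : ℂ[X] => P.eval z) h1
    simp only [eval_finsetSum, eval_mul, eval_C] at this
    exact this
  refine ⟨h2, ?_⟩
  simp only [eval_sub]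
  rw [Finset.sum_sub_distrib, h2, Finset.sum_const, Finset.card_range, nsmul_eq_mul]
  unfold pB
  rw [eval_sub]
  ring

lemma jensen_sq (N : ℕ) (a : ℕ → ℂ) :
    ‖∑ l ∈ Finset.range N, a l‖ ^ 2 ≤ N * ∑ l ∈ Finset.range N, ‖a l‖ ^ 2 := by
  have h1 : ‖∑ l ∈ Finset.range N, a l‖ ≤ ∑ l ∈ Finset.range N, ‖a l‖ := norm_sum_le _ _
  have h2 : (∑ l ∈ Finset.range N, ‖a l‖) ^ 2 ≤ N * ∑ l ∈ Finset.range N, ‖a l‖ ^ 2 := by
    have := sq_sum_le_card_mul_sum_sq (s := Finset.range N) (f := fun l => ‖a l‖)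
    rwa [Finset.card_range] at this
  exact (pow_le_pow_left₀ (norm_nonneg _) h1 2).trans h2

lemma fejer_lower {n : ℕ} {G : ℂ[X]} (hG : G.natDegree ≤ n) (hn : 1 ≤ n) {z : ℂ} (hz : ‖z‖ = 1) :
    n * (‖(pA n G).eval z‖ ^ 2 + ‖(pB n G).eval z‖ ^ 2)
      ≤ n * sq G z - TP n (fun k => (k : ℂ) * ac n G k) z := by
  rw [← trunc_id hG hz, Finset.sum_add_distrib]
  obtain ⟨h1, h2⟩ := sum_low hG hn z
  have hn0 : (0 : ℝ) < n := by exact_mod_cast (by omega : 0 < n)
  have h3 := jensen_sq n (fun l => (low G l).eval z)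
  have h4 := jensen_sq n (fun l => (G - low G l).eval z)
  rw [h1, norm_mul, Complex.norm_natCast, mul_pow] at h3
  rw [h2, norm_mul, Complex.norm_natCast, mul_pow] at h4
  have h5 : (n : ℝ) * ‖(pB n G).eval z‖ ^ 2 ≤ ∑ l ∈ Finset.range n, sq (low G l) z := by
    have : (n : ℝ) * (n * ‖(pB n G).eval z‖ ^ 2) ≤ n * ∑ l ∈ Finset.range n, sq (low G l) z := by
      refine le_trans (le_of_eq (by ring)) h3
    exact le_of_mul_le_mul_left this hn0
  have h6 : (n : ℝ) * ‖(pA n G).eval z‖ ^ 2 ≤ ∑ l ∈ Finset.range n, sq (G - low G l) z := by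
    have : (n : ℝ) * (n * ‖(pA n G).eval z‖ ^ 2)
        ≤ n * ∑ l ∈ Finset.range n, sq (G - low G l) z := by
      refine le_trans (le_of_eq (by ring)) h4
    exact le_of_mul_le_mul_left this hn0
  linarith

lemma re_DD {n : ℕ} (hn : 1 ≤ n) (G : ℂ[X]) (z : ℂ) :
    2 * ((DD G).eval z * conj (G.eval z)).re
      = n * (sq G z + ‖(pA n G).eval z‖ ^ 2 - ‖(pB n G).eval z‖ ^ 2) := by
  have hn0 : (n : ℂ) ≠ 0 := by exact_mod_cast (by omega : n ≠ 0)
  have h1 : (DD G).eval z = n * (pA n G).eval z := by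
    unfold pA DD
    rw [eval_mul (p := C ((n : ℂ)⁻¹)), eval_C, ← mul_assoc, mul_inv_cancel₀ hn0, one_mul]
  have h2 : (pB n G).eval z = G.eval z - (pA n G).eval z := by
    unfold pB
    rw [eval_sub]
  rw [h1, h2]
  unfold Pool.Agent.H82.NP.sq
  set a := (pA n G).eval z
  set g := G.eval z
  rw [← Complex.normSq_eq_norm_sq, ← Complex.normSq_eq_norm_sq, ← Complex.normSq_eq_norm_sq]
  simp only [Complex.normSq_apply, Complex.mul_re, Complex.mul_im, Complex.sub_re, Complex.sub_im,
    Complex.conj_re, Complex.conj_im, Complex.natCast_re, Complex.natCast_im]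
  ring

lemma av_TP_nat (n : ℕ) (G : ℂ[X]) : av (TP n (fun k => (k : ℂ) * ac n G k)) = 0 := by
  have h1 := Pool.Agent.H62.NP.t_LAV n (fun k => if k = 0 then 1 else 0)
    (fun k => (k : ℂ) * ac n G k) (by simp)
  have h2 : (fun z : ℂ => TP n (fun k => (k : ℂ) * ac n G k) z
      * (∑ k ∈ Finset.range (n + 1), (if k = 0 then (1 : ℂ) else 0) * z ^ k).re)
      = TP n (fun k => (k : ℂ) * ac n G k) := by
    funext z
    rw [Finset.sum_eq_single 0]
    · simp
    · intro b _ hb
      simp [hb]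
    · simp
  rw [h2] at h1
  rw [h1]
  unfold L
  rw [Finset.sum_eq_zero]
  · simp
  · intro k _
    by_cases hk : k = 0
    · simp [hk]
    · simp [hk]

lemma coeff_pA (n : ℕ) (G : ℂ[X]) (k : ℕ) : (pA n G).coeff k = (n : ℂ)⁻¹ * (k * G.coeff k) := by
  unfold pA
  rw [coeff_C_mul]
  congr 1
  exact coeff_DD G k

lemma natDegree_pA {n : ℕ} {G : ℂ[X]} (hG : G.natDegree ≤ n) : (pA n G).natDegree ≤ n := by
  rw [natDegree_le_iff_coeff_eq_zero]
  intro N hN
  rw [coeff_pA, coeff_eq_zero_of_natDegree_lt (lt_of_le_of_lt hG hN)]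
  simp

lemma natDegree_pB {n : ℕ} {G : ℂ[X]} (hG : G.natDegree ≤ n) : (pB n G).natDegree ≤ n :=
  (natDegree_sub_le _ _).trans (max_le hG (natDegree_pA hG))

lemma nrm_AB {n : ℕ} (hn : 1 ≤ n) (G : ℂ[X]) : nrm n (pA n G) + nrm n (pB n G) ≤ nrm n G := by
  unfold nrm
  rw [← Finset.sum_add_distrib]
  apply Finset.sum_le_sum
  intro k hk
  rw [Finset.mem_range] at hk
  have hn0 : (0 : ℝ) < n := by exact_mod_cast (by omega : 0 < n)
  have hn1 : (n : ℂ) ≠ 0 := by exact_mod_cast (by omega : n ≠ 0)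
  have hk0 : (0 : ℝ) ≤ k := by positivity
  have hk1 : (k : ℝ) ≤ n := by exact_mod_cast (by omega : k ≤ n)
  have e1 : ‖(pA n G).coeff k‖ = (k / n : ℝ) * ‖G.coeff k‖ := by
    rw [coeff_pA, norm_mul, norm_mul, norm_inv, Complex.norm_natCast, Complex.norm_natCast]
    ring
  have e2 : ‖(pB n G).coeff k‖ = (1 - k / n : ℝ) * ‖G.coeff k‖ := by
    have : (pB n G).coeff k = ((1 - k / n : ℝ) : ℂ) * G.coeff k := by
      unfold pB
      rw [coeff_sub, coeff_pA]
      push_cast
      field_simp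
    rw [this, norm_mul, Complex.norm_real, Real.norm_of_nonneg]
    rw [sub_nonneg, div_le_one hn0]
    exact hk1
  rw [e1, e2, mul_pow, mul_pow, ← add_mul]
  have h1 : (k / n : ℝ) ^ 2 + (1 - k / n) ^ 2 ≤ 1 := by
    have h2 : 0 ≤ (k / n : ℝ) := by positivity
    have h3 : (k / n : ℝ) ≤ 1 := by
      rw [div_le_one hn0]
      exact hk1
    nlinarith
  calc ((k / n : ℝ) ^ 2 + (1 - k / n) ^ 2) * ‖G.coeff k‖ ^ 2 ≤ 1 * ‖G.coeff k‖ ^ 2 :=
        mul_le_mul_of_nonneg_right h1 (sq_nonneg _)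
    _ = ‖G.coeff k‖ ^ 2 := one_mul _

lemma ci_poly (P : ℂ[X]) : CircleIntegrable (fun z => ‖P.eval z‖ ^ 2) 0 1 :=
  Pool.Agent.H92.NP.ci_of (P.continuous.norm.pow 2).continuousOn

theorem t_RT : T_RT := by
  intro n s c G lam m r ζ hn hs hs1 h hnrm
  have hG := h.deg
  have hn0 : (0 : ℝ) < n := by exact_mod_cast (by omega : 0 < n)
  -- the main identity
  have hid : ∀ z : ℂ, ‖z‖ = 1 → RT n G r ζ z
      = s * (‖(pB n G).eval z‖ ^ 2 - ‖(pA n G).eval z‖ ^ 2)
        + (1 - s) * (sq G z - TP n (fun k => (k : ℂ) * ac n G k) z / n) := by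
    intro z hz
    have h1 := kkt_id hn h hz
    rw [re_DD hn] at h1
    unfold RT
    rw [div_eq_iff hn0.ne']
    have e : TP n (fun k => (k : ℂ) * ac n G k) z / n * n
        = TP n (fun k => (k : ℂ) * ac n G k) z := div_mul_cancel₀ _ hn0.ne'
    linear_combination h1 + (1 - s) * e
  have hlow : ∀ z : ℂ, ‖z‖ = 1 → ‖(pA n G).eval z‖ ^ 2 + ‖(pB n G).eval z‖ ^ 2
      ≤ sq G z - TP n (fun k => (k : ℂ) * ac n G k) z / n := by
    intro z hz
    have h1 := fejer_lower hG hn hz
    have h2 : n * (sq G z - TP n (fun k => (k : ℂ) * ac n G k) z / n)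
        = n * sq G z - TP n (fun k => (k : ℂ) * ac n G k) z := by
      field_simp
    rw [← h2] at h1
    exact le_of_mul_le_mul_left h1 hn0
  refine ⟨?_, ?_, ?_, ?_⟩
  · intro z hz hGz
    unfold RT rho
    rw [Finset.sum_div, Finset.sum_mul]
    apply Finset.sum_congr rfl
    intro i _
    have h1 : (X - C (ζ i)) * (G /ₘ (X - C (ζ i))) = G :=
      mul_divByMonic_eq_iff_isRoot.2 (h.root i)
    have h2 : z - ζ i ≠ 0 := by
      intro h0
      rw [sub_eq_zero] at h0
      exact hGz (by rw [h0]; exact h.root i)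
    have h3 : ‖G.eval z‖ = ‖z - ζ i‖ * ‖(G /ₘ (X - C (ζ i))).eval z‖ := by
      conv_lhs => rw [← h1]
      rw [eval_mul, norm_mul, eval_sub, eval_X, eval_C]
    have h4 : ‖z - ζ i‖ ≠ 0 := norm_ne_zero_iff.2 h2
    rw [h3]
    field_simp
  · intro z hz
    rw [hid z hz]
    have h1 := hlow z hz
    have h2 := mul_le_mul_of_nonneg_left h1 (by linarith : 0 ≤ 1 - s)
    nlinarith [sq_nonneg ‖(pA n G).eval z‖]
  · intro z hz
    rw [hid z hz]
    have h1 := hlow z hz
    have h2 := mul_le_mul_of_nonneg_left h1 (by linarith : 0 ≤ 1 - s)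
    linarith
  · have e1 : av (fun z => RT n G r ζ z + 2 * s * ‖(pA n G).eval z‖ ^ 2)
        = av (fun z => s * ‖(pB n G).eval z‖ ^ 2 + (s * ‖(pA n G).eval z‖ ^ 2
          + ((1 - s) * sq G z - (1 - s) / n * TP n (fun k => (k : ℂ) * ac n G k) z))) := by
      apply Pool.Agent.H92.NP.av_congr
      intro z hz
      rw [hid z hz]
      ring
    have cA : CircleIntegrable (fun z => s * ‖(pA n G).eval z‖ ^ 2) 0 1 :=
      Pool.Agent.H92.NP.ci_of (continuous_const.mul ((pA n G).continuous.norm.pow 2)).continuousOn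
    have cB : CircleIntegrable (fun z => s * ‖(pB n G).eval z‖ ^ 2) 0 1 :=
      Pool.Agent.H92.NP.ci_of (continuous_const.mul ((pB n G).continuous.norm.pow 2)).continuousOn
    have cG : CircleIntegrable (fun z => (1 - s) * sq G z) 0 1 :=
      Pool.Agent.H92.NP.ci_of (continuous_const.mul (G.continuous.norm.pow 2)).continuousOn
    have cT : CircleIntegrable (fun z => (1 - s) / n * TP n (fun k => (k : ℂ) * ac n G k) z) 0 1 :=
      Pool.Agent.H92.NP.ci_of
        (continuous_const.mul (Pool.Agent.H62.NP.TP_cont n _)).continuousOn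
    have h0 : av (fun z => s * ‖(pB n G).eval z‖ ^ 2 + (s * ‖(pA n G).eval z‖ ^ 2
          + ((1 - s) * sq G z - (1 - s) / n * TP n (fun k => (k : ℂ) * ac n G k) z)))
        = s * nrm n (pB n G) + (s * nrm n (pA n G) + ((1 - s) * nrm n G - (1 - s) / n * 0)) := by
      rw [← Pool.Agent.H92.NP.t_PARS n _ (natDegree_pB hG),
        ← Pool.Agent.H92.NP.t_PARS n _ (natDegree_pA hG), ← Pool.Agent.H92.NP.t_PARS n _ hG,
        ← av_TP_nat n G]
      unfold av
      rw [← smul_eq_mul s, ← smul_eq_mul s, ← smul_eq_mul (1 - s), ← smul_eq_mul ((1 - s) / n),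
        ← Real.circleAverage_smul, ← Real.circleAverage_smul, ← Real.circleAverage_smul,
        ← Real.circleAverage_smul, ← Real.circleAverage_sub, ← Real.circleAverage_add,
        ← Real.circleAverage_add]
      · rfl
      all_goals first
        | exact cA | exact cB | exact cG | exact cT
        | exact cA.add (cG.sub cT) | exact cG.sub cT
    rw [e1, h0, hnrm]
    have := nrm_AB hn G
    rw [hnrm] at this
    nlinarith

end Pool.Agent.H82.UB
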