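import Mathlib
import Pool.Agent.H82.UB.Targets
import Pool.Agent.H39.NP.TELE

/-!
Module UNI.
-/

set_option autoImplicit false

open Metric Set Filter Topology Polynomial

namespace Pool.Agent.H82.UB

open Pool.Agent.H82.Hp (co Np exists_log)
open Pool.Agent.H82.NP

theorem t_UNI (hLOW : T_LOW) (hTELG : T_TELG) (hNPCC : T_NPCC) (hEA1 : T_EA1) : T_UNI := by
  intro n p q hn hp hpq f hf
  have hp0 : 0 < p := by linarith
  have hs0 : 0 < 1 / p := by positivity
  have hs1 : 1 / p < 1 := by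
    rw [div_lt_one hp0]
    exact hp
  obtain ⟨h, hh, hfh⟩ := exists_log hf.1 hf.2.1
  have h1 := hNPCC p hp.le f hf h hh hfh n
  have h2 := hEA1 f h hh hfh
  have hlog : 0 ≤ Real.log (16 / 15) := Real.log_nonneg (by norm_num)
  have h3 := hTELG n (Real.log (16 / 15)) hn hlog
    (fun s c G lam m r ζ a1 a2 hM hK =>
      hLOW n s c G lam m r ζ hn a1 a2 hK (Pool.Agent.H39.NP.nrm_one hM hK))
    (1 / p) hs0 hs1 _ h1
  rw [h2 n]
  refine h3.trans_eq ?_
  have h4 : 1 / q = 1 - 1 / p := by linarith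
  rw [h4, Real.rpow_def_of_pos (by norm_num : (0 : ℝ) < 15 / 16)]
  congr 1
  have h5 : Real.log (15 / 16) = - Real.log (16 / 15) := by
    rw [← Real.log_inv]
    congr 1
    norm_num
  rw [h5]
  ring

end Pool.Agent.H82.UB
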