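import Mathlib
import Pool.Agent.H82.NP.Main
import Pool.Agent.H82.UB.UNI
import Pool.Agent.H82.UB.LOW
import Pool.Agent.H82.UB.RT
import Pool.Agent.H82.UB.CERT
import Pool.Agent.H62.UB.S1
import Pool.Agent.H62.UB.HARM
import Pool.Agent.H40.UB.TELG

/-!
# Assembly of the uniform bound (`MP_ff17e6_an`)
-/

set_option autoImplicit false

open Metric Set Filter Topology

namespace Pool.Agent.H82.UB

open Pool.Agent Pool.Agent.H82.Hp

theorem uniT : T_UNI :=
  t_UNI (t_LOW H62.UB.t_S1 H62.UB.t_HARM t_RT t_CERT) H40.UB.t_TELG H82.NP.npccT H82.NP.eaOne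

end Pool.Agent.H82.UB
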